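import Pool.Agent.Y171.CE.Stm

/-!
Project CE (helper171), block S_SPAN: the lamps along a path span a lot.
-/

set_option autoImplicit false

open Polynomial Matrix

namespace Pool.Agent.Y240.CE

open Pool.Agent.Y171.CE

theorem prefix_mem {F : Type} [Field F] (L : AddSubgroup (Fin 2 → F)) (l : List (SL2 F)) :
    ∀ (m : ℕ) (v : Fin 2 → F), v ∈ L → act ((l.take m).prod) v ∈ US L l := by
  induction l with
  | nil =>
    intro m v hv
    simp only [List.take_nil, List.prod_nil, act_one]
    exact hv
  | cons g l ih =>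
    intro m v hv
    cases m with
    | zero =>
      simp only [List.take_zero, List.prod_nil, act_one]
      exact (le_sup_left : L ≤ L ⊔ (US L l).map (act g)) hv
    | succ m =>
      simp only [List.take_succ_cons, List.prod_cons, act_mul]
      exact (le_sup_right : (US L l).map (act g) ≤ L ⊔ (US L l).map (act g))
        (AddSubgroup.mem_map_of_mem _ (ih m v hv))

theorem dg_one {p : ℕ} [Fact p.Prime] : dg (1 : SL2 (ZMod p)[X]) = 0 := by
  unfold dg
  apply Nat.eq_zero_of_le_zero
  refine Finset.sup_le fun i _ => Finset.sup_le fun j _ => ?_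
  fin_cases i <;> fin_cases j <;> simp

theorem exists_prefix {p : ℕ} [Fact p.Prime] (hDG : S_DG) (l : List (NilT p)) :
    ∀ (m d : ℕ), d ≤ dg (pw (X : (ZMod p)[X]) (l.take m)) → ∃ m' : ℕ, dg (pw (X : (ZMod p)[X]) (l.take m')) = d := by
  intro m
  induction m with
  | zero =>
    intro d hd
    refine ⟨0, ?_⟩
    have h0 : dg (pw (X : (ZMod p)[X]) (l.take 0)) = 0 := by
      simp only [List.take_zero, pw, List.map_nil, List.prod_nil]
      exact dg_one
    omega
  | succ m ih =>
    intro d hd
    by_cases h : d ≤ dg (pw (X : (ZMod p)[X]) (l.take m))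
    · exact ih d h
    · refine ⟨m + 1, ?_⟩
      have h1 : dg (pw (X : (ZMod p)[X]) (l.take (m + 1))) ≤ dg (pw (X : (ZMod p)[X]) (l.take m)) + 1 := by
        by_cases hm : m < l.length
        · have e : l.take (m + 1) = l.take m ++ [l[m]] := by
            rw [List.take_succ_eq_append_getElem hm]
          rw [e]
          have e2 : pw (X : (ZMod p)[X]) (l.take m ++ [l[m]]) = pw (X : (ZMod p)[X]) (l.take m) * st X (l[m]) := by
            unfold pw
            rw [List.map_append, List.prod_append, List.map_cons, List.map_nil, List.prod_singleton]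
          rw [e2]
          exact (hDG p).2.1 _ _
        · have e : l.take (m + 1) = l.take m := by
            rw [List.take_of_length_le (by omega), List.take_of_length_le (by omega)]
          rw [e]
          omega
      omega

theorem le_dg {p : ℕ} (γ : SL2 (ZMod p)[X]) (i j : Fin 2) : (γ.1 i j).natDegree ≤ dg γ := by
  unfold dg
  refine le_trans ?_ (Finset.le_sup (f := fun i : Fin 2 => Finset.univ.sup (fun j : Fin 2 => (γ.1 i j).natDegree))
    (Finset.mem_univ i))
  exact Finset.le_sup (f := fun j : Fin 2 => (γ.1 i j).natDegree) (Finset.mem_univ j)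

theorem exists_entry {p : ℕ} [Fact p.Prime] (γ : SL2 (ZMod p)[X]) :
    ∃ i j : Fin 2, (γ.1 i j).coeff (dg γ) ≠ 0 := by
  obtain ⟨i, _, hi⟩ := Finset.exists_mem_eq_sup (Finset.univ : Finset (Fin 2)) Finset.univ_nonempty
    (fun i : Fin 2 => Finset.univ.sup (fun j : Fin 2 => (γ.1 i j).natDegree))
  obtain ⟨j, _, hj⟩ := Finset.exists_mem_eq_sup (Finset.univ : Finset (Fin 2)) Finset.univ_nonempty
    (fun j : Fin 2 => (γ.1 i j).natDegree)
  have hd : dg γ = (γ.1 i j).natDegree := by
    unfold dg
    rw [hi]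
    exact hj
  by_cases h0 : dg γ = 0
  · by_contra hcon
    push Not at hcon
    have hz : ∀ i j : Fin 2, γ.1 i j = 0 := by
      intro i j
      have h1 := le_dg γ i j
      rw [h0] at h1
      have h2 := hcon i j
      rw [h0] at h2
      rw [Polynomial.eq_C_of_natDegree_le_zero h1, h2, map_zero]
    have hdet := γ.2
    rw [Matrix.det_fin_two, hz 0 0, hz 0 1] at hdet
    simp at hdet
  · refine ⟨i, j, ?_⟩
    rw [hd]
    have : γ.1 i j ≠ 0 := by
      intro h
      rw [h, natDegree_zero] at hd
      exact h0 hd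
    exact fun h => this (leadingCoeff_eq_zero.1 h)

theorem st_map {p : ℕ} {F : Type} [Field F] [Algebra (ZMod p) F] (x : F) (N : NilT p) :
    st x N = Matrix.SpecialLinearGroup.map ((aeval x : (ZMod p)[X] →ₐ[ZMod p] F) : (ZMod p)[X] →+* F) (st X N) := by
  apply Subtype.ext
  ext i j
  change (st x N).1 i j = aeval x ((st (X : (ZMod p)[X]) N).1 i j)
  fin_cases i <;> fin_cases j
  · change 1 + x * _ = aeval x (1 + X * C N.1.1)
    rw [map_add, map_one, map_mul, aeval_X, aeval_C]
  · change x * _ = aeval x (X * C N.1.2.1)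
    rw [map_mul, aeval_X, aeval_C]
  · change x * _ = aeval x (X * C N.1.2.2)
    rw [map_mul, aeval_X, aeval_C]
  · change 1 - x * _ = aeval x (1 - X * C N.1.1)
    rw [map_sub, map_one, map_mul, aeval_X, aeval_C]

theorem pw_map {p : ℕ} {F : Type} [Field F] [Algebra (ZMod p) F] (x : F) (l : List (NilT p)) :
    pw x l = Matrix.SpecialLinearGroup.map ((aeval x : (ZMod p)[X] →ₐ[ZMod p] F) : (ZMod p)[X] →+* F) (pw X l) := by
  unfold pw
  rw [map_list_prod, List.map_map]
  congr 1
  apply List.map_congr_left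
  intro N _
  exact st_map x N

theorem pw_entry {p : ℕ} {F : Type} [Field F] [Algebra (ZMod p) F] (x : F) (l : List (NilT p)) (i j : Fin 2) :
    (pw x l).1 i j = aeval x ((pw (X : (ZMod p)[X]) l).1 i j) := by
  rw [pw_map]
  rfl

theorem exists_vec {p : ℕ} [Fact p.Prime] (hDG : S_DG) {F : Type} [Field F] [Algebra (ZMod p) F] (x : F)
    (L : AddSubgroup (Fin 2 → F)) (I b : ℕ) (hb : 1 ≤ b) (hL : lampL (p := p) x I b ≤ L) (l : List (NilT p)) (m : ℕ)
    (hm : b ≤ dg (pw (X : (ZMod p)[X]) (l.take m)) + 1) (n : ℕ) (hn : n < I * b) :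
    ∃ w : Fin 2 → (ZMod p)[X], (∀ t, (w t).natDegree ≤ n) ∧ (∃ t, (w t).coeff n ≠ 0) ∧
      (fun t => aeval x (w t)) ∈ US L (l.map (st x)) := by
  have hmod : n % b < b := Nat.mod_lt _ (by omega)
  obtain ⟨m', hm'⟩ := exists_prefix hDG l m (n % b) (by omega)
  obtain ⟨i0, j0, hij⟩ := exists_entry (pw (X : (ZMod p)[X]) (l.take m'))
  have hn2 : n / b * b + n % b = n := Nat.div_add_mod' n b
  have hI : n / b < I := Nat.div_lt_of_lt_mul (by rw [mul_comm]; exact hn)
  refine ⟨fun t => X ^ (n / b * b) * (pw (X : (ZMod p)[X]) (l.take m')).1 t j0, ?_, ?_, ?_⟩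
  · intro t
    refine le_trans natDegree_mul_le ?_
    have h1 := le_dg (pw (X : (ZMod p)[X]) (l.take m')) t j0
    have h2 : (X ^ (n / b * b) : (ZMod p)[X]).natDegree ≤ n / b * b := natDegree_X_pow_le _
    omega
  · refine ⟨i0, ?_⟩
    have e : n = n % b + n / b * b := by omega
    rw [hm'] at hij
    have : (X ^ (n / b * b) * (pw (X : (ZMod p)[X]) (l.take m')).1 i0 j0).coeff (n % b + n / b * b)
        = ((pw (X : (ZMod p)[X]) (l.take m')).1 i0 j0).coeff (n % b) := coeff_X_pow_mul _ _ _
    rw [← e] at this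
    rw [this]
    exact hij
  · have hv : (fun t : Fin 2 => x ^ (n / b * b) * algebraMap (ZMod p) F ((Pi.single j0 1 : Fin 2 → ZMod p) t)) ∈ L := by
      apply hL
      apply AddSubgroup.subset_closure
      exact ⟨n / b, hI, Pi.single j0 1, rfl⟩
    have h := prefix_mem L (l.map (st x)) m' _ hv
    convert h using 1
    rw [← List.map_take]
    funext t
    change _ = ((pw x (l.take m')).1.mulVec (fun t => x ^ (n / b * b) * algebraMap (ZMod p) F ((Pi.single j0 1 : Fin 2 → ZMod p) t))) t
    simp only [Matrix.mulVec, dotProduct, Fin.sum_univ_two, pw_entry]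
    fin_cases j0 <;> simp [mul_comm]

theorem card_of_vec {p : ℕ} [Fact p.Prime] {k : ℕ} {F : Type} [Field F] [Fintype F] [Algebra (ZMod p) F] {x : F}
    (hG : Good p k F x) (U : AddSubgroup (Fin 2 → F)) (N : ℕ) (hN : N ≤ k)
    (h : ∀ n < N, ∃ w : Fin 2 → (ZMod p)[X], (∀ t, (w t).natDegree ≤ n) ∧ (∃ t, (w t).coeff n ≠ 0) ∧
      (fun t => aeval x (w t)) ∈ U) : p ^ N ≤ Nat.card U := by
  classical
  choose! w hw1 hw2 hw3 using h
  obtain ⟨f, hf, hfd⟩ := hG.poly
  have hmem : ∀ c : Fin N → ZMod p, (fun t => aeval x (∑ n : Fin N, C (c n) * w n t)) ∈ U := by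
    intro c
    have e : (fun t => aeval x (∑ n : Fin N, C (c n) * w n t))
        = ∑ n : Fin N, (c n).val • (fun t => aeval x (w n t)) := by
      funext t
      rw [Finset.sum_apply, map_sum]
      refine Finset.sum_congr rfl fun n _ => ?_
      rw [map_mul, aeval_C, Pi.smul_apply]
      have : c n = (((c n).val : ℕ) : ZMod p) := (ZMod.natCast_zmod_val (c n)).symm
      conv_lhs => rw [this]
      rw [map_natCast, nsmul_eq_mul]
    rw [e]
    exact AddSubgroup.sum_mem _ fun n _ => AddSubgroup.nsmul_mem _ (hw3 n n.2) _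
  have hinj : Function.Injective (fun c : Fin N → ZMod p =>
      (⟨fun t => aeval x (∑ n : Fin N, C (c n) * w n t), hmem c⟩ : U)) := by
    intro c c' hcc
    have h1 : ∀ t, aeval x (∑ n : Fin N, C (c n) * w n t) = aeval x (∑ n : Fin N, C (c' n) * w n t) := by
      intro t
      exact congrFun (congrArg Subtype.val hcc) t
    by_contra hne
    have hne2 : ∃ n : Fin N, c n ≠ c' n := by
      by_contra hcon
      push Not at hcon
      exact hne (funext hcon)
    have hS : (Finset.univ.filter (fun n : Fin N => c n ≠ c' n)).Nonempty := by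
      obtain ⟨n, hn⟩ := hne2
      exact ⟨n, by simp [hn]⟩
    obtain ⟨n0, hn0, hmax⟩ := Finset.exists_max_image _ (fun n : Fin N => (n : ℕ)) hS
    have hn0' : c n0 ≠ c' n0 := by simpa using hn0
    have hP : ∀ t, (∑ n : Fin N, C (c n - c' n) * w n t) = 0 := by
      intro t
      have h2 : aeval x (∑ n : Fin N, C (c n - c' n) * w n t) = 0 := by
        have e : (∑ n : Fin N, C (c n - c' n) * w n t)
            = (∑ n : Fin N, C (c n) * w n t) - (∑ n : Fin N, C (c' n) * w n t) := by
          rw [← Finset.sum_sub_distrib]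
          refine Finset.sum_congr rfl fun n _ => ?_
          rw [C_sub, sub_mul]
        rw [e, map_sub, h1 t, sub_self]
      have h3 := (hfd _).1 h2
      by_contra hne3
      have h4 := natDegree_le_of_dvd h3 hne3
      rw [hf] at h4
      have h5 : (∑ n : Fin N, C (c n - c' n) * w n t).natDegree ≤ N - 1 := by
        apply natDegree_sum_le_of_forall_le
        intro n _
        refine le_trans (natDegree_C_mul_le _ _) ?_
        have := hw1 n n.2 t
        have := n.2
        omega
      have : 0 < N := lt_of_le_of_lt (Nat.zero_le _) n0.2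
      omega
    obtain ⟨t, ht⟩ := hw2 n0 n0.2
    have h6 := congrArg (fun P : (ZMod p)[X] => P.coeff (n0 : ℕ)) (hP t)
    simp only [finsetSum_coeff, coeff_zero, coeff_C_mul] at h6
    rw [Finset.sum_eq_single n0] at h6
    · rcases mul_eq_zero.1 h6 with h7 | h7
      · exact hn0' (sub_eq_zero.1 h7)
      · exact ht h7
    · intro n _ hn
      by_cases hcn : c n = c' n
      · rw [hcn, sub_self, zero_mul]
      · have h8 : (n : ℕ) ≤ n0 := hmax n (by simp [hcn])
        have h9 : (n : ℕ) < n0 := lt_of_le_of_ne h8 (fun h => hn (Fin.ext h))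
        rw [coeff_eq_zero_of_natDegree_lt (lt_of_le_of_lt (hw1 n n.2 t) h9), mul_zero]
    · intro h
      exact absurd (Finset.mem_univ _) h
  have hc := Nat.card_le_card_of_injective _ hinj
  have e : Nat.card (Fin N → ZMod p) = p ^ N := by
    rw [Nat.card_pi]
    simp
  rw [e] at hc
  exact hc

theorem span (hDG : S_DG) : S_SPAN := by
  intro p _ k F _ _ _ _ x hG L I b _ hb hk hL l m hm
  exact card_of_vec hG _ (I * b) hk fun n hn => exists_vec hDG x L I b hb hL l m hm n hn

end Pool.Agent.Y240.CE
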